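import Mathlib
import Pool.Agent.H66.GR.C

/-!
# Products of Grothendieck spaces with spaces that need not be compact

Q1 asks for `X × K` with `K` compact.  It is enough that `K` has a dense union of countably many
sets `D n` such that every countable subset of `D n` has compact closure in `K`; for the weak version
it is enough that every point of `K` has a neighbourhood of this kind.
-/

set_option autoImplicit false

open Set Filter Topology

namespace Pool.Agent.Results.MP_8a2df8_gt.OmegaBoundedFactor

universe u v w

/-- `C_p(X)`: the continuous real functions on `X` with the topology of pointwise convergence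
(the subspace topology from the product `X → ℝ`). -/
abbrev Cp (X : Type u) [TopologicalSpace X] : Type u := {f : X → ℝ // Continuous f}

/-- `A` is countably compact in `Z`: each infinite subset of `A` has an accumulation point in `Z`. -/
def CountablyCompactIn {Z : Type u} [TopologicalSpace Z] (A : Set Z) : Prop :=
  ∀ B ⊆ A, B.Infinite → ∃ z : Z, AccPt z (𝓟 B)

/-- `Z` is a g-space: `closure A` is compact for every `A` that is countably compact in `Z`. -/
def GSpace (Z : Type u) [TopologicalSpace Z] : Prop :=
  ∀ A : Set Z, CountablyCompactIn A → IsCompact (closure A)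

/-- `X` is Grothendieck: every subspace of `C_p(X)` is a g-space. -/
def Grothendieck (X : Type u) [TopologicalSpace X] : Prop := ∀ S : Set (Cp X), GSpace S

/-- `X` is weakly Grothendieck: `C_p(X)` is a g-space. -/
def WeaklyGrothendieck (X : Type u) [TopologicalSpace X] : Prop := GSpace (Cp X)

/-- `D` is omega-bounded in `K`: every countable subset of `D` has compact closure in `K`. -/
def OmegaBoundedIn {K : Type u} [TopologicalSpace K] (D : Set K) : Prop :=
  ∀ T ⊆ D, T.Countable → IsCompact (closure T)

/-- The class of second factors: `K` has a dense subset which is a union of countably many sets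
omega-bounded in `K`. -/
def Good (K : Type u) [TopologicalSpace K] : Prop :=
  ∃ D : ℕ → Set K, (∀ n, OmegaBoundedIn (D n)) ∧ Dense (⋃ n, D n)

/-- Every point of `K` has a neighbourhood which is omega-bounded in `K`. -/
def LocallyGood (K : Type u) [TopologicalSpace K] : Prop :=
  ∀ k : K, ∃ N ∈ 𝓝 k, OmegaBoundedIn N

/-- `K` has a dense `σ`-compact subset. -/
def HasDenseSigmaCompact (K : Type u) [TopologicalSpace K] : Prop :=
  ∃ C : ℕ → Set K, (∀ n, IsCompact (C n)) ∧ Dense (⋃ n, C n)

/-- The space of all countable ordinals, with its order topology. -/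
abbrev CountableOrdinals : Type 1 := Set.Iio (Ordinal.omega.{0} 1)

/-- **Theorem.** (1) If `X` is Grothendieck and `K` is good (for example compact), then `X × K` is
Grothendieck. (2) If `X` is weakly Grothendieck and `K` is locally good (for example compact), then
`X × K` is weakly Grothendieck. (3) Compact spaces are good and locally good. (4) Arbitrary products
of good spaces, and continuous images of good spaces with dense range, are good; so are all spaces
with a dense `σ`-compact subset. (5) The space of countable ordinals is good and locally good,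
and has no dense `σ`-compact subset. -/
theorem result :
    (∀ (X : Type u) [TopologicalSpace X] [T35Space X], Grothendieck X →
      ∀ (K : Type v) [TopologicalSpace K] [T35Space K], Good K → Grothendieck (X × K)) ∧
    (∀ (X : Type u) [TopologicalSpace X] [T35Space X], WeaklyGrothendieck X →
      ∀ (K : Type v) [TopologicalSpace K] [T35Space K], LocallyGood K →
        WeaklyGrothendieck (X × K)) ∧
    (∀ (K : Type v) [TopologicalSpace K] [T35Space K] [CompactSpace K],
      Good K ∧ LocallyGood K) ∧
    ((∀ (ι : Type w) (K : ι → Type v) [∀ i, TopologicalSpace (K i)] [∀ i, T35Space (K i)],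
        (∀ i, Good (K i)) → Good (∀ i, K i)) ∧
      (∀ (K : Type v) (L : Type w) [TopologicalSpace K] [TopologicalSpace L] [T35Space K]
        [T35Space L] (f : K → L), Continuous f → DenseRange f → Good K → Good L) ∧
      (∀ (K : Type v) [TopologicalSpace K] [T35Space K], HasDenseSigmaCompact K → Good K)) ∧
    (Good CountableOrdinals ∧ LocallyGood CountableOrdinals ∧
      ¬ HasDenseSigmaCompact CountableOrdinals) :=
  ⟨fun _ _ _ hX _ _ _ ⟨_, hD, hd⟩ => H66.GR.prod_OB hD hd hX,
    fun _ _ _ hX _ _ _ hK => H66.GR.wprod_OB hK hX,
    fun _ _ _ _ => ⟨H66.GR.dob_of_compact, fun _ =>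
      ⟨univ, univ_mem, fun _ _ _ => isClosed_closure.isCompact⟩⟩,
    ⟨fun _ _ _ _ h => H66.GR.dob_pi h, fun _ _ _ _ _ _ _ hf hr h => H66.GR.dob_image hf hr h,
      fun _ _ _ ⟨_, hC, hd⟩ => H66.GR.dob_of_sigma hC hd⟩,
    ⟨⟨fun _ => univ, fun _ => H66.GR.w1_ob, by rw [iUnion_const]; exact dense_univ⟩,
      fun _ => ⟨univ, univ_mem, H66.GR.w1_ob⟩,
      fun ⟨C, hC, hd⟩ => H66.GR.w1_not_sigma C hC hd⟩⟩

end Pool.Agent.Results.MP_8a2df8_gt.OmegaBoundedFactor
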